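import Pool.Agent.Zk88.Rdv2

/-!
# A lower bound with slope `4/3` for the triple rendezvous time

For every `n ≥ 6` there is a synchronizing automaton with `n` states and two letters (one of them
a permutation, the other of rank `n-1`) in which every word sending three distinct states to one
state has length at least `4⌊n/3⌋ + min(n mod 3, 1)`.  So
`rdv(3,n) ≥ 4⌊n/3⌋ + min(n mod 3, 1) ≥ (4n-5)/3` for every `n ≥ 6`.
-/

set_option autoImplicit false

namespace Pool.Agent.Results.MP_735804_co.FourThirdsLowerBound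

/-- The state reached from `p` by the word `w` (first letter of the list first). -/
def act {n k : ℕ} (δ : Fin k → Fin n → Fin n) (w : List (Fin k)) (p : Fin n) : Fin n :=
  w.foldl (fun x l => δ l x) p

/-- The automaton `δ` is synchronizing: it has a reset word. -/
def Synchronizing {n k : ℕ} (δ : Fin k → Fin n → Fin n) : Prop :=
  ∃ (w : List (Fin k)) (q : Fin n), ∀ p : Fin n, act δ w p = q

/-- The word `w` sends some three distinct states to one state. -/
def MergesTriple {n k : ℕ} (δ : Fin k → Fin n → Fin n) (w : List (Fin k)) : Prop :=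
  ∃ a b c : Fin n, a ≠ b ∧ a ≠ c ∧ b ≠ c ∧ act δ w a = act δ w b ∧ act δ w a = act δ w c

open Pool.Agent.Zk88.Rdv

theorem result : ∀ n : ℕ, 6 ≤ n → ∃ δ : Fin 2 → Fin n → Fin n, Synchronizing δ ∧
    ∀ w : List (Fin 2), MergesTriple δ w → 4 * (n / 3) + min (n % 3) 1 ≤ w.length := by
  intro n hn
  obtain ⟨m, f, hf, rfl⟩ : ∃ m f, f < 3 ∧ n = 3*m+f := ⟨n/3, n%3, by omega, by omega⟩
  have hm : 2 ≤ m := by omega
  let δ : Fin 2 → Fin (3*m+f) → Fin (3*m+f) :=
    fun l x => ⟨st m f (decide (l = 1)) x.1, st_lt m f _ x.1 hm x.2⟩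
  have hval : ∀ (w : List (Fin 2)) (p : Fin (3*m+f)),
      (act δ w p).1 = run m f (w.map (fun l => decide (l = 1))) p.1 := by
    intro w
    induction w with
    | nil => intro p; rfl
    | cons l w ih => intro p; exact ih (δ l p)
  have hval' : ∀ (w : List Bool) (p : Fin (3*m+f)),
      (act δ (w.map (fun b => if b then (1 : Fin 2) else 0)) p).1 = run m f w p.1 := by
    intro w p
    rw [hval, List.map_map]
    congr 1
    conv_rhs => rw [← List.map_id w]
    apply List.map_congr_left
    intro b _
    cases b <;> simp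
  refine ⟨δ, ?_, ?_⟩
  · have hpair : ∀ x y : Fin (3*m+f), ∃ w : List (Fin 2),
        w.foldl (fun x l => δ l x) x = w.foldl (fun x l => δ l x) y := by
      intro x y
      obtain ⟨w, hw⟩ := mg_all m f x.1 y.1 hm
      refine ⟨w.map (fun b => if b then (1 : Fin 2) else 0), ?_⟩
      apply Fin.ext
      have h1 := hval' w x
      have h2 := hval' w y
      unfold act at h1 h2
      rw [h1, h2, hw]
    obtain ⟨w, q, hq⟩ := exists_reset δ hpair _ Finset.univ le_rfl
      ⟨⟨0, by omega⟩, Finset.mem_univ _⟩
    exact ⟨w, q, fun p => hq p (Finset.mem_univ p)⟩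
  · rintro w ⟨a, b, c, hab, hac, hbc, h1, h2⟩
    by_contra hlt
    have hee := ee_cases f
    have hlen : (w.map (fun l : Fin 2 => decide (l = 1))).length < 4*m+ee f := by
      rw [List.length_map]
      have e1 : (3*m+f)/3 = m := by omega
      have e2 : (3*m+f)%3 = f := by omega
      rw [e1, e2] at hlt
      omega
    refine no_triple m f hm (w.map (fun l : Fin 2 => decide (l = 1))) a.1 b.1 c.1 a.2 b.2 c.2
      (fun h => hab (Fin.ext h)) (fun h => hac (Fin.ext h)) (fun h => hbc (Fin.ext h)) hlen ⟨?_, ?_⟩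
    · rw [← hval, ← hval, h1]
    · rw [← hval, ← hval, h2]

end Pool.Agent.Results.MP_735804_co.FourThirdsLowerBound
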